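import Mathlib
import Pool.Agent.Helper59.NP.Iface

/-!
# The lens shaped curvilinear polygon
-/

set_option autoImplicit false
open Set MeasureTheory Filter Topology
open scoped ENNReal ComplexConjugate

namespace Pool.Agent.Helper53.NP

open Pool.Agent.Helper59.NP

variable {η : ℝ → ℝ}

/-- the angle function in the parameter `r` -/
noncomputable def zeta (η : ℝ → ℝ) (r : ℝ) : ℝ := gam η (Real.log (r / (1 - r)))

noncomputable def EE (η : ℝ → ℝ) (r : ℝ) : ℂ := Complex.exp ((zeta η r : ℂ) * Complex.I)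

noncomputable def DD (η : ℝ → ℝ) (r : ℝ) : ℂ := 1 - (r : ℂ) + (r : ℂ) * EE η r

/-- the upper arc -/
noncomputable def Zr (η : ℝ → ℝ) (r : ℝ) : ℂ := (r : ℂ) * EE η r / DD η r

/-- its derivative -/
noncomputable def Zd (η : ℝ → ℝ) (r : ℝ) : ℂ :=
  EE η r * (1 + ((r * (1 - r) * deriv (zeta η) r : ℝ) : ℂ) * Complex.I) / DD η r ^ 2

lemma eta_zero (h : IsBump η) : η 0 = 0 := by
  have h1 : Tendsto η (𝓝[>] 0) (𝓝 (η 0)) :=
    (h.smooth.continuous.tendsto 0).mono_left nhdsWithin_le_nhds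
  have h2 : Tendsto η (𝓝[>] 0) (𝓝 0) := by
    refine tendsto_const_nhds.congr' ?_
    filter_upwards [self_mem_nhdsWithin] with x hx
    exact (h.supp x (fun hx' => absurd hx'.2 (not_le.2 hx))).symm
  exact tendsto_nhds_unique h1 h2

lemma gam_zero (h : IsBump η) : gam η 0 = Real.pi / 4 := by
  unfold gam; rw [eta_zero h, sub_zero]

lemma zeta_zero (h : IsBump η) : zeta η 0 = Real.pi / 4 := by
  unfold zeta; simp [gam_zero h]

lemma zeta_one (h : IsBump η) : zeta η 1 = Real.pi / 4 := by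
  unfold zeta; simp [gam_zero h]

lemma zeta_le (h : IsBump η) (r : ℝ) : zeta η r ≤ Real.pi / 4 := h.gam_le _

lemma zeta_ge (h : IsBump η) (r : ℝ) : 3 / 4 ≤ zeta η r := h.gam_ge' _

lemma zeta_near_zero (h : IsBump η) : zeta η =ᶠ[𝓝 0] fun _ => Real.pi / 4 := by
  have h1 : Ioo (-(1 / 4) : ℝ) (1 / 4) ∈ 𝓝 (0 : ℝ) := Ioo_mem_nhds (by norm_num) (by norm_num)
  filter_upwards [h1] with r hr
  by_cases h0 : r = 0
  · rw [h0, zeta_zero h]
  unfold zeta
  apply h.gam_eq
  intro hmem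
  have h2 : |r / (1 - r)| < Real.exp (-1) := by
    have h3 : |r / (1 - r)| ≤ 1 / 3 := by
      rw [abs_div, abs_of_pos (show (0 : ℝ) < 1 - r by linarith [hr.2]), div_le_iff₀ (by linarith [hr.2])]
      rcases abs_cases r with ⟨h4, _⟩ | ⟨h4, _⟩ <;> rw [h4] <;> linarith [hr.1, hr.2]
    have h5 : (1 : ℝ) / 3 < Real.exp (-1) := by
      rw [Real.exp_neg, ← one_div]
      exact one_div_lt_one_div_of_lt (Real.exp_pos 1) (by linarith [Real.exp_one_lt_d9])
    linarith
  have h6 : 0 < |r / (1 - r)| := by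
    apply abs_pos.2
    exact div_ne_zero h0 (by linarith [hr.2])
  have h7 : Real.log (r / (1 - r)) < -1 := by
    rw [← Real.log_abs, Real.log_lt_iff_lt_exp h6]
    exact h2
  linarith [hmem.1]

lemma zeta_near_one (h : IsBump η) : zeta η =ᶠ[𝓝 1] fun _ => Real.pi / 4 := by
  have h1 : Ioo (3 / 4 : ℝ) (5 / 4) ∈ 𝓝 (1 : ℝ) := Ioo_mem_nhds (by norm_num) (by norm_num)
  filter_upwards [h1] with r hr
  by_cases h0 : r = 1
  · rw [h0, zeta_one h]
  unfold zeta
  apply h.gam_eq
  intro hmem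
  have h8 : 0 < |1 - r| := abs_pos.2 (fun h9 => h0 (by linarith))
  have h2 : 1 < |r / (1 - r)| := by
    rw [abs_div, one_lt_div h8, abs_of_pos (show (0 : ℝ) < r by linarith [hr.1]), abs_lt]
    constructor <;> linarith [hr.1, hr.2]
  have h7 : 0 < Real.log (r / (1 - r)) := by
    rw [← Real.log_abs]
    exact Real.log_pos h2
  linarith [hmem.2]

lemma contDiffAt_zeta (h : IsBump η) (h3 : ContDiff ℝ 3 η) (r : ℝ) : ContDiffAt ℝ 3 (zeta η) r := by
  by_cases h0 : r = 0
  · rw [h0]; exact contDiffAt_const.congr_of_eventuallyEq (zeta_near_zero h)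
  by_cases h1 : r = 1
  · rw [h1]; exact contDiffAt_const.congr_of_eventuallyEq (zeta_near_one h)
  have h2 : 1 - r ≠ 0 := fun h4 => h1 (by linarith)
  have h5 : ContDiffAt ℝ 3 (fun r : ℝ => Real.log (r / (1 - r))) r := by
    apply ContDiffAt.log
    · exact contDiffAt_id.div (contDiffAt_const.sub contDiffAt_id) h2
    · exact div_ne_zero h0 h2
  have h6 : ContDiffAt ℝ 3 (gam η) (Real.log (r / (1 - r))) := by
    unfold gam
    exact contDiffAt_const.sub h3.contDiffAt
  exact h6.comp r h5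

lemma norm_EE (r : ℝ) : ‖EE η r‖ = 1 := Complex.norm_exp_ofReal_mul_I _

lemma EE_ne (r : ℝ) : EE η r ≠ 0 := Complex.exp_ne_zero _

lemma EE_re (r : ℝ) : (EE η r).re = Real.cos (zeta η r) := Complex.exp_ofReal_mul_I_re _

lemma EE_im (r : ℝ) : (EE η r).im = Real.sin (zeta η r) := Complex.exp_ofReal_mul_I_im _

lemma cos_zeta_pos (h : IsBump η) (r : ℝ) : 0 < Real.cos (zeta η r) := by
  apply Real.cos_pos_of_mem_Ioo
  constructor
  · linarith [zeta_ge h r, Real.pi_pos]
  · linarith [zeta_le h r, Real.pi_pos]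

lemma sin_zeta_pos (h : IsBump η) (r : ℝ) : 0 < Real.sin (zeta η r) := by
  apply Real.sin_pos_of_pos_of_lt_pi
  · linarith [zeta_ge h r]
  · linarith [zeta_le h r, Real.pi_pos]

lemma DD_re (r : ℝ) : (DD η r).re = 1 - r + r * Real.cos (zeta η r) := by
  unfold DD
  simp [EE_re]

lemma DD_im (r : ℝ) : (DD η r).im = r * Real.sin (zeta η r) := by
  unfold DD
  simp [EE_im]

lemma DD_ne (h : IsBump η) {r : ℝ} (hr : r ∈ Icc (0 : ℝ) 1) : DD η r ≠ 0 := by
  intro h0
  have h1 := congrArg Complex.re h0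
  rw [DD_re] at h1
  simp only [Complex.zero_re] at h1
  have h2 := cos_zeta_pos h r
  rcases eq_or_lt_of_le hr.1 with h3 | h3
  · rw [← h3] at h1; norm_num at h1
  · have := mul_pos h3 h2
    linarith [hr.2]

lemma hasDerivAt_zeta (h : IsBump η) (h3 : ContDiff ℝ 3 η) (r : ℝ) :
    HasDerivAt (zeta η) (deriv (zeta η) r) r :=
  ((contDiffAt_zeta h h3 r).differentiableAt (by norm_num)).hasDerivAt

lemma hasDerivAt_EE (h : IsBump η) (h3 : ContDiff ℝ 3 η) (r : ℝ) :
    HasDerivAt (EE η) (EE η r * (((deriv (zeta η) r : ℝ) : ℂ) * Complex.I)) r := by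
  have h1 := (hasDerivAt_zeta h h3 r).ofReal_comp
  have h2 := (h1.mul_const Complex.I).cexp
  exact h2

lemma hasDerivAt_DD (h : IsBump η) (h3 : ContDiff ℝ 3 η) (r : ℝ) :
    HasDerivAt (DD η)
      (-1 + (EE η r + r * (EE η r * (((deriv (zeta η) r : ℝ) : ℂ) * Complex.I)))) r := by
  have h1 : HasDerivAt (fun r : ℝ => (r : ℂ)) 1 r := (hasDerivAt_id r).ofReal_comp
  have h2 := (h1.const_sub 1).add (h1.mul (hasDerivAt_EE h h3 r))
  rw [one_mul] at h2
  exact h2

lemma hasDerivAt_Zr (h : IsBump η) (h3 : ContDiff ℝ 3 η) {r : ℝ} (hr : r ∈ Icc (0 : ℝ) 1) :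
    HasDerivAt (Zr η) (Zd η r) r := by
  have h1 : HasDerivAt (fun r : ℝ => (r : ℂ)) 1 r := (hasDerivAt_id r).ofReal_comp
  have h2 := (h1.mul (hasDerivAt_EE h h3 r)).div (hasDerivAt_DD h h3 r) (DD_ne h hr)
  have e : Zd η r = ((1 * EE η r + r * (EE η r * (((deriv (zeta η) r : ℝ) : ℂ) * Complex.I))) *
      DD η r - r * EE η r *
      (-1 + (EE η r + r * (EE η r * (((deriv (zeta η) r : ℝ) : ℂ) * Complex.I))))) / DD η r ^ 2 := by
    unfold Zd
    congr 1
    unfold DD
    push_cast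
    ring
  rw [e]
  exact h2

lemma contDiffAt_EE (h : IsBump η) (h3 : ContDiff ℝ 3 η) (r : ℝ) : ContDiffAt ℝ 3 (EE η) r := by
  have h1 : ContDiffAt ℝ 3 (fun r => ((zeta η r : ℝ) : ℂ)) r :=
    Complex.ofRealCLM.contDiff.contDiffAt.comp r (contDiffAt_zeta h h3 r)
  exact (h1.mul contDiffAt_const).cexp

lemma contDiffAt_Zr (h : IsBump η) (h3 : ContDiff ℝ 3 η) {r : ℝ} (hr : r ∈ Icc (0 : ℝ) 1) :
    ContDiffAt ℝ 3 (Zr η) r := by
  have h0 : ContDiffAt ℝ 3 (fun r : ℝ => (r : ℂ)) r := Complex.ofRealCLM.contDiff.contDiffAt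
  have h1 := contDiffAt_EE h h3 r
  have h2 : ContDiffAt ℝ 3 (DD η) r := (contDiffAt_const.sub h0).add (h0.mul h1)
  have h4 := (h0.mul h1).mul (h2.inv (DD_ne h hr))
  refine h4.congr_of_eventuallyEq (Eventually.of_forall fun s => ?_)
  simp only [Zr, div_eq_mul_inv, Pi.inv_apply]

lemma Zr_zero : Zr η 0 = 0 := by simp [Zr]

lemma Zr_one : Zr η 1 = 1 := by
  unfold Zr DD
  simp [div_self, EE_ne]

lemma one_sub_Zr (h : IsBump η) {r : ℝ} (hr : r ∈ Icc (0 : ℝ) 1) :
    1 - Zr η r = (1 - r) / DD η r := by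
  have h1 := DD_ne h hr
  unfold Zr
  field_simp
  unfold DD
  ring

lemma norm_Zr {r : ℝ} (hr : r ∈ Icc (0 : ℝ) 1) : ‖Zr η r‖ = r / ‖DD η r‖ := by
  unfold Zr
  rw [norm_div, norm_mul, norm_EE, mul_one, Complex.norm_real, Real.norm_of_nonneg hr.1]

lemma norm_one_sub_Zr (h : IsBump η) {r : ℝ} (hr : r ∈ Icc (0 : ℝ) 1) :
    ‖1 - Zr η r‖ = (1 - r) / ‖DD η r‖ := by
  rw [one_sub_Zr h hr, norm_div]
  congr 1
  rw [show (1 : ℂ) - (r : ℂ) = ((1 - r : ℝ) : ℂ) by push_cast; ring, Complex.norm_real,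
    Real.norm_of_nonneg (by linarith [hr.2])]

lemma recover (h : IsBump η) {r : ℝ} (hr : r ∈ Icc (0 : ℝ) 1) :
    r = ‖Zr η r‖ / (‖Zr η r‖ + ‖1 - Zr η r‖) := by
  have h1 : 0 < ‖DD η r‖ := norm_pos_iff.2 (DD_ne h hr)
  rw [norm_Zr hr, norm_one_sub_Zr h hr, ← add_div]
  rw [show r + (1 - r) = 1 by ring]
  field_simp

lemma Zr_inj (h : IsBump η) {r s : ℝ} (hr : r ∈ Icc (0 : ℝ) 1) (hs : s ∈ Icc (0 : ℝ) 1)
    (e : Zr η r = Zr η s) : r = s := by
  rw [recover h hr, recover h hs, e]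

lemma Zr_im (h : IsBump η) {r : ℝ} (hr : r ∈ Icc (0 : ℝ) 1) :
    (Zr η r).im = r * (1 - r) * Real.sin (zeta η r) / Complex.normSq (DD η r) := by
  unfold Zr
  rw [Complex.div_im]
  simp only [Complex.mul_re, Complex.mul_im, Complex.ofReal_re, Complex.ofReal_im, EE_re, EE_im,
    DD_re, DD_im]
  have h1 : Complex.normSq (DD η r) ≠ 0 := by
    rw [Ne, Complex.normSq_eq_zero]; exact DD_ne h hr
  field_simp
  ring_nf

lemma Zr_im_pos (h : IsBump η) {r : ℝ} (hr : r ∈ Ioo (0 : ℝ) 1) : 0 < (Zr η r).im := by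
  have hr' : r ∈ Icc (0 : ℝ) 1 := ⟨hr.1.le, hr.2.le⟩
  rw [Zr_im h hr']
  apply div_pos
  · have := sin_zeta_pos h r
    have h1 := hr.1
    have h2 : 0 < 1 - r := by linarith [hr.2]
    positivity
  · exact Complex.normSq_pos.2 (DD_ne h hr')

lemma Zd_ne (h : IsBump η) {r : ℝ} (hr : r ∈ Icc (0 : ℝ) 1) : Zd η r ≠ 0 := by
  unfold Zd
  apply div_ne_zero
  · apply mul_ne_zero (EE_ne r)
    intro h0
    have := congrArg Complex.re h0
    simp at this
  · exact pow_ne_zero _ (DD_ne h hr)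

/-! ### The parameter change -/

noncomputable def sg (x : ℝ) : ℝ := Real.exp x / (1 + Real.exp x)

noncomputable def sd (x : ℝ) : ℝ := Real.exp x / (1 + Real.exp x) ^ 2

lemma sg_mem (x : ℝ) : sg x ∈ Ioo (0 : ℝ) 1 := by
  have := Real.exp_pos x
  unfold sg
  constructor
  · positivity
  · rw [div_lt_one (by positivity)]; linarith

lemma one_sub_sg (x : ℝ) : 1 - sg x = 1 / (1 + Real.exp x) := by
  have := Real.exp_pos x
  unfold sg
  field_simp
  ring

lemma sd_pos (x : ℝ) : 0 < sd x := by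
  have := Real.exp_pos x
  unfold sd
  positivity

lemma sd_eq (x : ℝ) : sd x = sg x * (1 - sg x) := by
  have := Real.exp_pos x
  rw [one_sub_sg]
  unfold sd sg
  field_simp

lemma sg_div (x : ℝ) : sg x / (1 - sg x) = Real.exp x := by
  have := Real.exp_pos x
  rw [one_sub_sg]
  unfold sg
  field_simp

lemma hasDerivAt_sg (x : ℝ) : HasDerivAt sg (sd x) x := by
  have h1 := Real.exp_pos x
  have h2 := (Real.hasDerivAt_exp x).div ((Real.hasDerivAt_exp x).const_add 1)
    (show (1 + Real.exp x) ≠ 0 by positivity)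
  have e : sd x = (Real.exp x * (1 + Real.exp x) - Real.exp x * Real.exp x) /
      (1 + Real.exp x) ^ 2 := by
    unfold sd
    congr 1
    ring
  rw [e]
  exact h2

lemma sg_inj {x y : ℝ} (h : sg x = sg y) : x = y := by
  have h1 := sg_div x
  rw [h, sg_div y] at h1
  exact (Real.exp_injective h1).symm

lemma exists_sg {r : ℝ} (hr : r ∈ Ioo (0 : ℝ) 1) : ∃ x, sg x = r := by
  refine ⟨Real.log (r / (1 - r)), ?_⟩
  have h1 : 0 < 1 - r := by linarith [hr.2]
  unfold sg
  rw [Real.exp_log (div_pos hr.1 h1)]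
  field_simp
  ring

lemma range_sg : sg '' univ = Ioo 0 1 := by
  ext r
  constructor
  · rintro ⟨x, -, rfl⟩; exact sg_mem x
  · intro hr
    obtain ⟨x, hx⟩ := exists_sg hr
    exact ⟨x, trivial, hx⟩

lemma zeta_sg (x : ℝ) : zeta η (sg x) = gam η x := by
  unfold zeta; rw [sg_div, Real.log_exp]

lemma exp_uu (x : ℝ) : Complex.exp (uu η x) = (Real.exp x : ℂ) * EE η (sg x) := by
  unfold uu EE
  rw [zeta_sg, Complex.exp_add, Complex.ofReal_exp]

lemma Zr_sg (x : ℝ) : Zr η (sg x) = Z η x := by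
  have h1 : (1 + (Real.exp x : ℂ)) ≠ 0 := by
    have : (0 : ℝ) < 1 + Real.exp x := by positivity
    exact_mod_cast this.ne'
  unfold Zr Z
  rw [exp_uu]
  have h2 : DD η (sg x) = (1 + (Real.exp x : ℂ) * EE η (sg x)) / (1 + (Real.exp x : ℂ)) := by
    unfold DD
    have h3 : (1 : ℂ) - (sg x : ℂ) = 1 / (1 + (Real.exp x : ℂ)) := by
      have := congrArg (fun t : ℝ => (t : ℂ)) (one_sub_sg x)
      push_cast at this ⊢
      exact this
    rw [h3]
    have h4 : ((sg x : ℝ) : ℂ) = (Real.exp x : ℂ) / (1 + (Real.exp x : ℂ)) := by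
      unfold sg; push_cast; rfl
    rw [h4]
    field_simp
  have h4 : ((sg x : ℝ) : ℂ) = (Real.exp x : ℂ) / (1 + (Real.exp x : ℂ)) := by
    unfold sg; push_cast; rfl
  rw [h2, h4, div_div_eq_mul_div]
  field_simp

lemma hasDerivAt_zeta_sg (h : IsBump η) (h3 : ContDiff ℝ 3 η) (x : ℝ) :
    deriv (zeta η) (sg x) * sd x = gam' η x := by
  have h1 := (hasDerivAt_zeta h h3 (sg x)).comp x (hasDerivAt_sg x)
  have h2 : (zeta η ∘ sg) = gam η := by
    ext y; exact zeta_sg y
  rw [h2] at h1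
  exact h1.unique (h.hasDerivAt_gam x)

lemma Zd_sg (h : IsBump η) (h3 : ContDiff ℝ 3 η) (x : ℝ) :
    Zd η (sg x) * (sd x : ℂ) = Z' η x := by
  have h1 : (1 + (Real.exp x : ℂ)) ≠ 0 := by
    have : (0 : ℝ) < 1 + Real.exp x := by positivity
    exact_mod_cast this.ne'
  have h2 : DD η (sg x) = (1 + (Real.exp x : ℂ) * EE η (sg x)) / (1 + (Real.exp x : ℂ)) := by
    unfold DD
    have h3 : (1 : ℂ) - (sg x : ℂ) = 1 / (1 + (Real.exp x : ℂ)) := by
      have := congrArg (fun t : ℝ => (t : ℂ)) (one_sub_sg x)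
      push_cast at this ⊢
      exact this
    rw [h3]
    have h4 : ((sg x : ℝ) : ℂ) = (Real.exp x : ℂ) / (1 + (Real.exp x : ℂ)) := by
      unfold sg; push_cast; rfl
    rw [h4]
    field_simp
  have h4 : sg x * (1 - sg x) * deriv (zeta η) (sg x) = gam' η x := by
    rw [← hasDerivAt_zeta_sg h h3 x, sd_eq]; ring
  have hD := DD_ne h (Ioo_subset_Icc_self (sg_mem x))
  unfold Zd Z'
  rw [h4, exp_uu]
  have h5 : (1 + (Real.exp x : ℂ) * EE η (sg x)) = DD η (sg x) * (1 + (Real.exp x : ℂ)) := by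
    rw [h2]; field_simp
  rw [h5]
  unfold sd
  push_cast
  field_simp

/-! ### The domain -/

noncomputable def MM (z : ℂ) : ℂ := z / (1 - z)

/-- the domain bounded by the lens -/
def Om (η : ℝ → ℝ) : Set ℂ :=
  {z | z ≠ 0 ∧ z ≠ 1 ∧ |(Complex.log (MM z)).im| < gam η (Complex.log (MM z)).re}

noncomputable def LL (w : ℂ) : ℂ := Complex.exp w / (1 + Complex.exp w)

lemma MM_ne {z : ℂ} (h0 : z ≠ 0) (h1 : z ≠ 1) : MM z ≠ 0 :=
  div_ne_zero h0 (fun h => h1 (by linear_combination -h))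

lemma recover_MM {z : ℂ} (h1 : z ≠ 1) : z = MM z / (1 + MM z) := by
  have h2 : 1 - z ≠ 0 := fun h => h1 (by linear_combination -h)
  unfold MM
  field_simp
  ring

lemma one_add_MM_ne {z : ℂ} (h1 : z ≠ 1) : 1 + MM z ≠ 0 := by
  have h2 : 1 - z ≠ 0 := fun h => h1 (by linear_combination -h)
  have h3 : 1 + MM z = 1 / (1 - z) := by
    unfold MM; field_simp; ring
  rw [h3]
  exact one_div_ne_zero h2

lemma MM_LL {w : ℂ} (h : 1 + Complex.exp w ≠ 0) : MM (LL w) = Complex.exp w := by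
  unfold MM LL
  have : 1 - Complex.exp w / (1 + Complex.exp w) = 1 / (1 + Complex.exp w) := by
    field_simp; ring
  rw [this]
  field_simp

lemma LL_ne_zero {w : ℂ} (h : 1 + Complex.exp w ≠ 0) : LL w ≠ 0 :=
  div_ne_zero (Complex.exp_ne_zero _) h

lemma LL_ne_one {w : ℂ} (h : 1 + Complex.exp w ≠ 0) : LL w ≠ 1 := by
  intro h1
  unfold LL at h1
  rw [div_eq_one_iff_eq h] at h1
  exact one_ne_zero (show (1 : ℂ) = 0 by linear_combination -h1)

lemma one_add_exp_ne {w : ℂ} (h : |w.im| < Real.pi / 2) : 1 + Complex.exp w ≠ 0 := by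
  intro h0
  have h1 := congrArg Complex.re h0
  rw [Complex.add_re, Complex.one_re, Complex.exp_re, Complex.zero_re] at h1
  have h2 : 0 < Real.cos w.im := Real.cos_pos_of_mem_Ioo ⟨by linarith [(abs_lt.1 h).1], (abs_lt.1 h).2⟩
  have := mul_pos (Real.exp_pos w.re) h2
  linarith

lemma log_MM_LL {w : ℂ} (h : |w.im| < Real.pi / 2) : Complex.log (MM (LL w)) = w := by
  rw [MM_LL (one_add_exp_ne h)]
  apply Complex.log_exp
  · linarith [(abs_lt.1 h).1, Real.pi_pos]
  · linarith [(abs_lt.1 h).2, Real.pi_pos]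

/-- the point of the strip with parameters `(x, s)` -/
noncomputable def ww (η : ℝ → ℝ) (x s : ℝ) : ℂ := (x : ℂ) + ((s * gam η x : ℝ) : ℂ) * Complex.I

lemma ww_re (x s : ℝ) : (ww η x s).re = x := by simp [ww]
lemma ww_im (x s : ℝ) : (ww η x s).im = s * gam η x := by simp [ww]

lemma abs_ww_im (h : IsBump η) {x s : ℝ} (hs : |s| ≤ 1) : |(ww η x s).im| < Real.pi / 2 := by
  rw [ww_im, abs_mul, abs_of_pos (show 0 < gam η x by linarith [h.gam_ge' x])]
  have h1 := h.gam_le x
  have h2 := h.gam_ge' x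
  have := Real.pi_pos
  nlinarith [abs_nonneg s]

lemma LL_ww_mem (h : IsBump η) {x s : ℝ} (hs : |s| < 1) : LL (ww η x s) ∈ Om η := by
  have h1 := abs_ww_im h (x := x) hs.le
  refine ⟨LL_ne_zero (one_add_exp_ne h1), LL_ne_one (one_add_exp_ne h1), ?_⟩
  rw [log_MM_LL h1, ww_re, ww_im, abs_mul, abs_of_pos (show 0 < gam η x by linarith [h.gam_ge' x])]
  have h2 := h.gam_ge' x
  nlinarith

lemma eq_LL_ww (h : IsBump η) {z : ℂ} (hz : z ∈ Om η) : ∃ x s : ℝ, |s| < 1 ∧ z = LL (ww η x s) := by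
  obtain ⟨h0, h1, h2⟩ := hz
  set w := Complex.log (MM z) with hw
  have hg : 0 < gam η w.re := by linarith [h.gam_ge' w.re]
  refine ⟨w.re, w.im / gam η w.re, ?_, ?_⟩
  · rw [abs_div, abs_of_pos hg, div_lt_one hg]; exact h2
  · have e : ww η w.re (w.im / gam η w.re) = w := by
      apply Complex.ext
      · rw [ww_re]
      · rw [ww_im]; field_simp
    rw [e]
    unfold LL
    rw [hw, Complex.exp_log (MM_ne h0 h1)]
    exact recover_MM h1

lemma Om_eq (h : IsBump η) :
    Om η = (fun p : ℝ × ℝ => LL (ww η p.1 p.2)) '' (univ ×ˢ Ioo (-1 : ℝ) 1) := by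
  ext z
  constructor
  · intro hz
    obtain ⟨x, s, hs, rfl⟩ := eq_LL_ww h hz
    exact ⟨(x, s), ⟨trivial, abs_lt.1 hs⟩, rfl⟩
  · rintro ⟨⟨x, s⟩, ⟨-, hs⟩, rfl⟩
    exact LL_ww_mem h (abs_lt.2 hs)

lemma continuous_ww (h : IsBump η) : Continuous (fun p : ℝ × ℝ => ww η p.1 p.2) := by
  have h1 := h.continuous_gam
  unfold ww
  fun_prop

lemma continuousOn_LL (h : IsBump η) :
    ContinuousOn (fun p : ℝ × ℝ => LL (ww η p.1 p.2)) (univ ×ˢ Icc (-1 : ℝ) 1) := by
  intro p hp
  have h1 := one_add_exp_ne (abs_ww_im h (x := p.1) (abs_le.2 hp.2))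
  have h2 := (continuous_ww h).continuousAt (x := p)
  apply ContinuousAt.continuousWithinAt
  have h3 : ContinuousAt (fun p : ℝ × ℝ => Complex.exp (ww η p.1 p.2)) p :=
    Complex.continuous_exp.continuousAt.comp h2
  exact h3.div (continuousAt_const.add h3) h1

lemma isConnected_Om (h : IsBump η) : IsConnected (Om η) := by
  rw [Om_eq h]
  apply IsConnected.image
  · refine ⟨⟨(0, 0), trivial, by norm_num⟩, ?_⟩
    exact isPreconnected_univ.prod isPreconnected_Ioo
  · exact (continuousOn_LL h).mono (prod_mono_right Ioo_subset_Icc_self)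

lemma MM_re_pos (h : IsBump η) {z : ℂ} (hz : z ∈ Om η) : 0 < (MM z).re := by
  obtain ⟨x, s, hs, rfl⟩ := eq_LL_ww h hz
  have h1 := abs_ww_im h (x := x) hs.le
  rw [MM_LL (one_add_exp_ne h1), Complex.exp_re]
  apply mul_pos (Real.exp_pos _)
  exact Real.cos_pos_of_mem_Ioo ⟨by linarith [(abs_lt.1 h1).1], (abs_lt.1 h1).2⟩

lemma norm_le_one (h : IsBump η) {z : ℂ} (hz : z ∈ Om η) : ‖z‖ ≤ 1 := by
  have h1 := MM_re_pos h hz
  have h2 := recover_MM hz.2.1
  have h3 := one_add_MM_ne hz.2.1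
  rw [h2, norm_div, div_le_one (norm_pos_iff.2 h3)]
  apply le_of_sq_le_sq _ (norm_nonneg _)
  rw [Complex.sq_norm, Complex.sq_norm, Complex.normSq_apply, Complex.normSq_apply]
  simp only [Complex.add_re, Complex.one_re, Complex.add_im, Complex.one_im]
  nlinarith

lemma isBounded_Om (h : IsBump η) : Bornology.IsBounded (Om η) :=
  (Metric.isBounded_closedBall (x := (0 : ℂ)) (r := 1)).subset (fun z hz => by
    simpa using norm_le_one h hz)

lemma mem_slitPlane (h : IsBump η) {z : ℂ} (hz : z ∈ Om η) : MM z ∈ Complex.slitPlane :=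
  Or.inl (MM_re_pos h hz)

lemma continuousAt_MM {z : ℂ} (h1 : z ≠ 1) : ContinuousAt MM z := by
  have h2 : 1 - z ≠ 0 := fun h => h1 (by linear_combination -h)
  exact continuousAt_id.div (continuousAt_const.sub continuousAt_id) h2

lemma continuousAt_log_MM {z : ℂ} (h1 : z ≠ 1) (hs : MM z ∈ Complex.slitPlane) :
    ContinuousAt (fun z => Complex.log (MM z)) z :=
  (continuousAt_clog hs).comp (continuousAt_MM h1)

lemma isOpen_Om (h : IsBump η) : IsOpen (Om η) := by
  rw [isOpen_iff_mem_nhds]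
  intro z hz
  have hc := continuousAt_log_MM hz.2.1 (mem_slitPlane h hz)
  have hF : ContinuousAt (fun z => gam η (Complex.log (MM z)).re - |(Complex.log (MM z)).im|) z := by
    apply ContinuousAt.sub
    · exact h.continuous_gam.continuousAt.comp (Complex.continuous_re.continuousAt.comp hc)
    · exact (Complex.continuous_im.continuousAt.comp hc).abs
  have hpos : 0 < gam η (Complex.log (MM z)).re - |(Complex.log (MM z)).im| := by
    linarith [hz.2.2]
  filter_upwards [isOpen_ne.mem_nhds hz.1, isOpen_ne.mem_nhds hz.2.1,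
    hF.eventually (lt_mem_nhds hpos)] with w h0 h1 h2
  exact ⟨h0, h1, by linarith⟩

lemma Z_eq_LL (x : ℝ) : Z η x = LL (ww η x 1) := by
  unfold Z LL ww uu; rw [one_mul]

lemma conj_exp_uu (x : ℝ) : conj (Complex.exp (uu η x)) = Complex.exp (ww η x (-1)) := by
  rw [← Complex.exp_conj]
  congr 1
  unfold uu ww
  apply Complex.ext <;> simp

lemma conj_Z_eq_LL (x : ℝ) : conj (Z η x) = LL (ww η x (-1)) := by
  unfold Z LL
  rw [map_div₀, map_add, map_one, conj_exp_uu]

lemma Z_mem_closure (h : IsBump η) (x : ℝ) : Z η x ∈ closure (Om η) ∧ conj (Z η x) ∈ closure (Om η) := by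
  have hc : ContinuousOn (fun s : ℝ => LL (ww η x s)) (Icc (-1 : ℝ) 1) := by
    have h1 : ContinuousOn (fun s : ℝ => (x, s)) (Icc (-1 : ℝ) 1) := by fun_prop
    exact (continuousOn_LL h).comp h1 (fun s hs => ⟨trivial, hs⟩)
  have hcl : closure (Ioo (-1 : ℝ) 1) = Icc (-1) 1 := closure_Ioo (by norm_num)
  have key : ∀ s ∈ Icc (-1 : ℝ) 1, LL (ww η x s) ∈ closure (Om η) := by
    intro s hs
    have h2 := ContinuousOn.image_closure (s := Ioo (-1 : ℝ) 1) (f := fun s : ℝ => LL (ww η x s))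
      (by rw [hcl]; exact hc)
    rw [hcl] at h2
    have h3 := h2 ⟨s, hs, rfl⟩
    refine closure_mono ?_ h3
    rintro _ ⟨s, hs, rfl⟩
    exact LL_ww_mem h (abs_lt.2 hs)
  constructor
  · rw [Z_eq_LL]; exact key 1 (by norm_num)
  · rw [conj_Z_eq_LL]; exact key (-1) (by norm_num)

lemma Z_notMem (h : IsBump η) (x : ℝ) : Z η x ∉ Om η ∧ conj (Z η x) ∉ Om η := by
  have hg := h.gam_ge' x
  constructor
  · rw [Z_eq_LL]
    intro hz
    have h2 := hz.2.2
    rw [log_MM_LL (abs_ww_im h (by norm_num)), ww_re, ww_im, one_mul, abs_of_pos (by linarith)] at h2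
    exact lt_irrefl _ h2
  · rw [conj_Z_eq_LL]
    intro hz
    have h2 := hz.2.2
    rw [log_MM_LL (abs_ww_im h (by norm_num)), ww_re, ww_im, neg_one_mul, abs_neg,
      abs_of_pos (by linarith)] at h2
    exact lt_irrefl _ h2

/-- the curve -/
def Gam (η : ℝ → ℝ) : Set ℂ := Zr η '' Icc 0 1 ∪ (fun r => conj (Zr η r)) '' Icc 0 1

lemma frontier_Om (h : IsBump η) (h3 : ContDiff ℝ 3 η) : frontier (Om η) = Gam η := by
  rw [(isOpen_Om h).frontier_eq]
  apply Subset.antisymm
  · rintro z ⟨hcl, hz⟩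
    by_cases h0 : z = 0
    · exact Or.inl ⟨0, by simp, by rw [Zr_zero, h0]⟩
    by_cases h1 : z = 1
    · exact Or.inl ⟨1, by simp, by rw [Zr_one, h1]⟩
    have hre : 0 ≤ (MM z).re :=
      ContinuousWithinAt.closure_le hcl continuousWithinAt_const
        (Complex.continuous_re.continuousAt.comp (continuousAt_MM h1)).continuousWithinAt
        (fun w hw => (MM_re_pos h hw).le)
    have hsl : MM z ∈ Complex.slitPlane := by
      rcases eq_or_lt_of_le hre with h4 | h4
      · right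
        intro h5
        exact MM_ne h0 h1 (Complex.ext h4.symm h5)
      · exact Or.inl h4
    have hc := continuousAt_log_MM h1 hsl
    have hle : |(Complex.log (MM z)).im| ≤ gam η (Complex.log (MM z)).re :=
      ContinuousWithinAt.closure_le hcl
        (Complex.continuous_im.continuousAt.comp hc).abs.continuousWithinAt
        (h.continuous_gam.continuousAt.comp
          (Complex.continuous_re.continuousAt.comp hc)).continuousWithinAt
        (fun w hw => hw.2.2.le)
    have heq : |(Complex.log (MM z)).im| = gam η (Complex.log (MM z)).re := by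
      apply le_antisymm hle
      by_contra hlt
      push Not at hlt
      exact hz ⟨h0, h1, hlt⟩
    set w := Complex.log (MM z) with hw
    have hzw : z = LL w := by
      unfold LL
      rw [hw, Complex.exp_log (MM_ne h0 h1)]
      exact recover_MM h1
    rcases abs_cases w.im with ⟨h5, _⟩ | ⟨h5, _⟩
    · left
      refine ⟨sg w.re, Ioo_subset_Icc_self (sg_mem _), ?_⟩
      rw [Zr_sg, Z_eq_LL, hzw]
      congr 1
      apply Complex.ext
      · rw [ww_re]
      · rw [ww_im, ← heq, h5, one_mul]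
    · right
      refine ⟨sg w.re, Ioo_subset_Icc_self (sg_mem _), ?_⟩
      simp only
      rw [Zr_sg, conj_Z_eq_LL, hzw]
      congr 1
      apply Complex.ext
      · rw [ww_re]
      · rw [ww_im, ← heq, h5]; ring
  · have hcont : ContinuousOn (Zr η) (Icc 0 1) := fun r hr =>
      (contDiffAt_Zr h h3 hr).continuousAt.continuousWithinAt
    have hcl : closure (Ioo (0 : ℝ) 1) = Icc 0 1 := closure_Ioo (by norm_num)
    rintro z (⟨r, hr, rfl⟩ | ⟨r, hr, rfl⟩)
    · constructor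
      · have h2 := ContinuousOn.image_closure (s := Ioo (0 : ℝ) 1) (f := Zr η) (by rw [hcl]; exact hcont)
        rw [hcl] at h2
        refine closure_minimal ?_ isClosed_closure (h2 ⟨r, hr, rfl⟩)
        rintro _ ⟨s, hs, rfl⟩
        obtain ⟨x, rfl⟩ := exists_sg hs
        rw [Zr_sg]
        exact (Z_mem_closure h x).1
      · intro hz
        rcases eq_or_lt_of_le hr.1 with h4 | h4
        · apply hz.1; rw [← h4, Zr_zero]
        rcases eq_or_lt_of_le hr.2 with h5 | h5
        · apply hz.2.1; rw [h5, Zr_one]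
        obtain ⟨x, rfl⟩ := exists_sg ⟨h4, h5⟩
        rw [Zr_sg] at hz
        exact (Z_notMem h x).1 hz
    · constructor
      · have h2 := ContinuousOn.image_closure (s := Ioo (0 : ℝ) 1) (f := fun r => conj (Zr η r))
          (by rw [hcl]; exact Complex.continuous_conj.comp_continuousOn hcont)
        rw [hcl] at h2
        refine closure_minimal ?_ isClosed_closure (h2 ⟨r, hr, rfl⟩)
        rintro _ ⟨s, hs, rfl⟩
        obtain ⟨x, rfl⟩ := exists_sg hs
        simp only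
        rw [Zr_sg]
        exact (Z_mem_closure h x).2
      · intro hz
        simp only at hz
        rcases eq_or_lt_of_le hr.1 with h4 | h4
        · apply hz.1; rw [← h4, Zr_zero, map_zero]
        rcases eq_or_lt_of_le hr.2 with h5 | h5
        · apply hz.2.1; rw [h5, Zr_one, map_one]
        obtain ⟨x, rfl⟩ := exists_sg ⟨h4, h5⟩
        rw [Zr_sg] at hz
        exact (Z_notMem h x).2 hz

/-! ### The domain lies to the left -/

lemma log_MM_Z (h : IsBump η) (x : ℝ) : Complex.log (MM (Z η x)) = uu η x := by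
  rw [Z_eq_LL, log_MM_LL (abs_ww_im h (by norm_num))]
  unfold ww uu; rw [one_mul]

lemma Z_ne_one (h : IsBump η) (x : ℝ) : Z η x ≠ 1 := by
  rw [Z_eq_LL]; exact LL_ne_one (one_add_exp_ne (abs_ww_im h (by norm_num)))

lemma Z_ne_zero (h : IsBump η) (x : ℝ) : Z η x ≠ 0 := by
  rw [Z_eq_LL]; exact LL_ne_zero (one_add_exp_ne (abs_ww_im h (by norm_num)))

lemma MM_Z (h : IsBump η) (x : ℝ) : MM (Z η x) = Complex.exp (uu η x) := by
  rw [← log_MM_Z h x, Complex.exp_log (MM_ne (Z_ne_zero h x) (Z_ne_one h x))]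

lemma hasDerivAt_MM {z : ℂ} (h1 : z ≠ 1) : HasDerivAt MM (1 / (1 - z) ^ 2) z := by
  have h2 : 1 - z ≠ 0 := fun h => h1 (by linear_combination -h)
  have h3 := (hasDerivAt_id z).div ((hasDerivAt_id z).const_sub 1) h2
  have e : 1 / (1 - z) ^ 2 = (1 * (1 - id z) - id z * (-1)) / (1 - id z) ^ 2 := by
    simp
  rw [e]
  exact h3

lemma hasDerivAt_log_MM {z : ℂ} (h1 : z ≠ 1) (hs : MM z ∈ Complex.slitPlane) :
    HasDerivAt (fun z => Complex.log (MM z)) (1 / (z * (1 - z))) z := by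
  have h2 : 1 - z ≠ 0 := fun h => h1 (by linear_combination -h)
  have h3 := (hasDerivAt_MM h1).clog hs
  have hz : z ≠ 0 := by
    rintro rfl
    apply Complex.slitPlane_ne_zero hs
    simp [MM]
  have e : 1 / (z * (1 - z)) = 1 / (1 - z) ^ 2 / MM z := by
    unfold MM; field_simp
  rw [e]
  exact h3

/-- `d log M(Z) = (1 + iγ') dx` -/
lemma key_deriv (h : IsBump η) (h3 : ContDiff ℝ 3 η) (x : ℝ) :
    Zd η (sg x) / (Z η x * (1 - Z η x)) = ((1 / sd x : ℝ) : ℂ) * (1 + (gam' η x : ℂ) * Complex.I) := by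
  have h1 := one_add_exp_ne (abs_ww_im h (x := x) (s := 1) (by norm_num))
  have e : ww η x 1 = uu η x := by unfold ww uu; rw [one_mul]
  rw [e] at h1
  have h2 : 1 - Z η x = 1 / (1 + Complex.exp (uu η x)) := by
    unfold Z; field_simp; ring
  have h4 : (sd x : ℂ) ≠ 0 := by exact_mod_cast (sd_pos x).ne'
  have h5 : Zd η (sg x) = Z' η x / (sd x : ℂ) := by
    rw [← Zd_sg h h3 x]; field_simp
  have h6 := Complex.exp_ne_zero (uu η x)
  rw [h5, h2]
  unfold Z' Z
  push_cast
  field_simp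

lemma left_upper (h : IsBump η) (h3 : ContDiff ℝ 3 η) {r : ℝ} (hr : r ∈ Ioo (0 : ℝ) 1) :
    ∀ᶠ ε : ℝ in 𝓝[>] 0, Zr η r - ε * (Complex.I * Zd η r) ∈ Om η := by
  obtain ⟨x, rfl⟩ := exists_sg hr
  rw [Zr_sg]
  set T := Zd η (sg x) with hT
  set c : ℝ → ℂ := fun ε => Z η x - ε * (Complex.I * T) with hc
  have hc0 : c 0 = Z η x := by simp [hc]
  have hcd : HasDerivAt c (-(Complex.I * T)) 0 := by
    have h1 : HasDerivAt (fun r : ℝ => (r : ℂ)) 1 0 := (hasDerivAt_id (0 : ℝ)).ofReal_comp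
    have h2 := (h1.mul_const (Complex.I * T)).const_sub (Z η x)
    rw [one_mul] at h2
    exact h2
  have hcc : ContinuousAt c 0 := hcd.continuousAt
  have hsl : MM (Z η x) ∈ Complex.slitPlane := by
    rw [MM_Z h, Z_eq_LL] at *
    left
    rw [Complex.exp_re]
    apply mul_pos (Real.exp_pos _)
    have := abs_ww_im h (x := x) (s := 1) (by norm_num)
    have e : ww η x 1 = uu η x := by unfold ww uu; rw [one_mul]
    rw [e] at this
    exact Real.cos_pos_of_mem_Ioo ⟨by linarith [(abs_lt.1 this).1], (abs_lt.1 this).2⟩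
  have hW : HasDerivAt (fun ε => Complex.log (MM (c ε)))
      (((1 / sd x : ℝ) : ℂ) * ((gam' η x : ℂ) - Complex.I)) 0 := by
    have h1 := (hasDerivAt_log_MM (Z_ne_one h x) hsl)
    rw [← hc0] at h1
    have h2 := h1.comp (0 : ℝ) hcd
    have e : 1 / (c 0 * (1 - c 0)) * -(Complex.I * T) =
        ((1 / sd x : ℝ) : ℂ) * ((gam' η x : ℂ) - Complex.I) := by
      have h4 := key_deriv h h3 x
      rw [← hT] at h4
      rw [hc0]
      have h5 : 1 / (Z η x * (1 - Z η x)) * -(Complex.I * T) =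
        -(Complex.I * (T / (Z η x * (1 - Z η x)))) := by ring
      rw [h5, h4]
      linear_combination (-((1 / sd x : ℝ) : ℂ) * (gam' η x : ℂ)) * Complex.I_mul_I
    rw [e] at h2
    exact h2
  have hWc := hW.continuousAt
  have hlog0 : Complex.log (MM (c 0)) = uu η x := by rw [hc0, log_MM_Z h]
  have hre : HasDerivAt (fun ε => (Complex.log (MM (c ε))).re) (1 / sd x * gam' η x) 0 := by
    have h1 := Complex.reCLM.hasFDerivAt.comp_hasDerivAt (0 : ℝ) hW
    have e : Complex.reCLM (((1 / sd x : ℝ) : ℂ) * ((gam' η x : ℂ) - Complex.I)) =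
        1 / sd x * gam' η x := by
      rw [Complex.reCLM_apply, Complex.re_ofReal_mul]; simp
    rw [e] at h1
    exact h1
  have him : HasDerivAt (fun ε => (Complex.log (MM (c ε))).im) (-(1 / sd x)) 0 := by
    have h1 := Complex.imCLM.hasFDerivAt.comp_hasDerivAt (0 : ℝ) hW
    have e : Complex.imCLM (((1 / sd x : ℝ) : ℂ) * ((gam' η x : ℂ) - Complex.I)) =
        -(1 / sd x) := by
      rw [Complex.imCLM_apply, Complex.im_ofReal_mul]; simp
    rw [e] at h1
    exact h1
  have hPhi : HasDerivAt (fun ε => gam η (Complex.log (MM (c ε))).re - (Complex.log (MM (c ε))).im)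
      (gam' η x * (1 / sd x * gam' η x) - -(1 / sd x)) 0 := by
    have h1 := h.hasDerivAt_gam x
    have e : (Complex.log (MM (c 0))).re = x := by rw [hlog0]; simp [uu]
    have h2 : HasDerivAt (gam η) (gam' η x) ((Complex.log (MM (c 0))).re) := by rw [e]; exact h1
    exact (h2.comp (0 : ℝ) hre).sub him
  have hpos : 0 < gam' η x * (1 / sd x * gam' η x) - -(1 / sd x) := by
    have h1 : 0 < 1 / sd x := one_div_pos.2 (sd_pos x)
    nlinarith [mul_nonneg h1.le (sq_nonneg (gam' η x))]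
  have hPhi0 : gam η (Complex.log (MM (c 0))).re - (Complex.log (MM (c 0))).im = 0 := by
    rw [hlog0]; simp [uu]
  -- the positive direction
  have hev1 : ∀ᶠ ε : ℝ in 𝓝[>] 0,
      0 < gam η (Complex.log (MM (c ε))).re - (Complex.log (MM (c ε))).im := by
    have h1 := hPhi.tendsto_slope
    have h2 := (h1.mono_left (nhdsWithin_mono (0 : ℝ) (show Ioi (0 : ℝ) ⊆ {0}ᶜ from
      fun y hy => (ne_of_gt hy)))).eventually (lt_mem_nhds hpos)
    filter_upwards [h2, self_mem_nhdsWithin] with ε h4 h5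
    rw [slope_def_field, hPhi0, sub_zero, sub_zero] at h4
    exact (div_pos_iff_of_pos_right h5).1 h4
  have hev2 : ∀ᶠ ε : ℝ in 𝓝[>] 0, 0 < (Complex.log (MM (c ε))).im := by
    have h1 := him.continuousAt
    have h2 : 0 < (Complex.log (MM (c 0))).im := by
      rw [hlog0]; simp [uu]; linarith [h.gam_ge' x]
    exact (h1.eventually (lt_mem_nhds h2)).filter_mono nhdsWithin_le_nhds
  have hev3 : ∀ᶠ ε : ℝ in 𝓝[>] 0, c ε ≠ 0 := by
    refine (hcc.eventually_ne ?_).filter_mono nhdsWithin_le_nhds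
    rw [hc0]; exact Z_ne_zero h x
  have hev4 : ∀ᶠ ε : ℝ in 𝓝[>] 0, c ε ≠ 1 := by
    refine (hcc.eventually_ne ?_).filter_mono nhdsWithin_le_nhds
    rw [hc0]; exact Z_ne_one h x
  filter_upwards [hev1, hev2, hev3, hev4] with ε h1 h2 h4 h5
  refine ⟨h4, h5, ?_⟩
  rw [abs_of_pos h2]
  linarith

lemma conj_mem (h : IsBump η) {z : ℂ} (hz : z ∈ Om η) : conj z ∈ Om η := by
  obtain ⟨h0, h1, h2⟩ := hz
  refine ⟨?_, ?_, ?_⟩
  · intro h4; apply h0
    have := congrArg conj h4
    simpa using this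
  · intro h4; apply h1
    have := congrArg conj h4
    simpa using this
  · have e : MM (conj z) = conj (MM z) := by
      unfold MM
      rw [map_div₀, map_sub, map_one]
    have harg : Complex.arg (MM z) ≠ Real.pi := by
      have h4 : |(Complex.log (MM z)).im| < Real.pi := by
        have := h.gam_le (Complex.log (MM z)).re
        linarith [Real.pi_pos]
      rw [Complex.log_im] at h4
      intro h5
      rw [h5, abs_of_pos Real.pi_pos] at h4
      exact lt_irrefl _ h4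
    rw [e, Complex.log_conj _ harg, Complex.conj_im, Complex.conj_re, abs_neg]
    exact h2

/-! ### The polygon -/

/-- the two arcs -/
noncomputable def lensArc (η : ℝ → ℝ) : Fin 2 → ℝ → ℂ :=
  ![fun t => conj (Zr η t), fun t => Zr η (1 - t)]

noncomputable def lensVel (η : ℝ → ℝ) : Fin 2 → ℝ → ℂ :=
  ![fun t => conj (Zd η t), fun t => -Zd η (1 - t)]

lemma one_sub_mem {t : ℝ} (ht : t ∈ Icc (0 : ℝ) 1) : 1 - t ∈ Icc (0 : ℝ) 1 :=
  ⟨by linarith [ht.2], by linarith [ht.1]⟩

lemma hasDerivAt_lensArc (h : IsBump η) (h3 : ContDiff ℝ 3 η) (i : Fin 2) {t : ℝ}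
    (ht : t ∈ Icc (0 : ℝ) 1) : HasDerivAt (lensArc η i) (lensVel η i t) t := by
  fin_cases i
  · change HasDerivAt (fun t => conj (Zr η t)) (conj (Zd η t)) t
    exact (Complex.conjCLE.toContinuousLinearMap.hasFDerivAt.comp_hasDerivAt t
      (hasDerivAt_Zr h h3 ht))
  · change HasDerivAt (fun t => Zr η (1 - t)) (-Zd η (1 - t)) t
    have h1 := (hasDerivAt_Zr h h3 (one_sub_mem ht)).scomp t ((hasDerivAt_id t).const_sub 1)
    simp only [neg_smul, one_smul] at h1
    exact h1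

lemma derivWithin_lensArc (h : IsBump η) (h3 : ContDiff ℝ 3 η) (i : Fin 2) {t : ℝ}
    (ht : t ∈ Icc (0 : ℝ) 1) : derivWithin (lensArc η i) (Icc 0 1) t = lensVel η i t :=
  (hasDerivAt_lensArc h h3 i ht).hasDerivWithinAt.derivWithin
    (uniqueDiffOn_Icc zero_lt_one t ht)

lemma lensVel_ne (h : IsBump η) (i : Fin 2) {t : ℝ} (ht : t ∈ Icc (0 : ℝ) 1) :
    lensVel η i t ≠ 0 := by
  fin_cases i
  · change conj (Zd η t) ≠ 0
    rw [Ne, map_eq_zero]
    exact Zd_ne h ht
  · change -Zd η (1 - t) ≠ 0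
    rw [Ne, neg_eq_zero]
    exact Zd_ne h (one_sub_mem ht)

lemma Zr_im_nonneg (h : IsBump η) {r : ℝ} (hr : r ∈ Icc (0 : ℝ) 1) : 0 ≤ (Zr η r).im := by
  rcases eq_or_lt_of_le hr.1 with h4 | h4
  · rw [← h4, Zr_zero]; simp
  rcases eq_or_lt_of_le hr.2 with h5 | h5
  · rw [h5, Zr_one]; simp
  exact (Zr_im_pos h ⟨h4, h5⟩).le

lemma cross (h : IsBump η) {s t : ℝ} (hs : s ∈ Ico (0 : ℝ) 1) (ht : t ∈ Ico (0 : ℝ) 1)
    (e : conj (Zr η s) = Zr η (1 - t)) : False := by
  have ht' : 1 - t ∈ Icc (0 : ℝ) 1 := ⟨by linarith [ht.2], by linarith [ht.1]⟩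
  rcases eq_or_lt_of_le hs.1 with h4 | h4
  · rw [← h4, Zr_zero, map_zero] at e
    have h5 := Zr_inj h (r := 0) (s := 1 - t) (by norm_num) ht' (by rw [Zr_zero, e])
    linarith [ht.2]
  · have h5 := Zr_im_pos h ⟨h4, hs.2⟩
    have h6 := Zr_im_nonneg h ht'
    rw [← e, Complex.conj_im] at h6
    linarith

/-- The lens. -/
noncomputable def lens (h : IsBump η) (h3 : ContDiff ℝ 3 η) : CurvPolygon where
  n := 1
  arc := lensArc η
  Ω := Om η
  contDiff := by
    intro i t ht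
    fin_cases i
    · change ContDiffWithinAt ℝ 3 (fun t => conj (Zr η t)) (Icc 0 1) t
      exact (Complex.conjCLE.contDiff.contDiffAt.comp t (contDiffAt_Zr h h3 ht)).contDiffWithinAt
    · change ContDiffWithinAt ℝ 3 (fun t => Zr η (1 - t)) (Icc 0 1) t
      exact ((contDiffAt_Zr h h3 (one_sub_mem ht)).comp t
        (contDiffAt_const.sub contDiffAt_id)).contDiffWithinAt
  vel_ne := by
    intro i t ht
    rw [derivWithin_lensArc h h3 i ht]
    exact lensVel_ne h i ht
  closed := by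
    intro i
    fin_cases i
    · change conj (Zr η 1) = Zr η (1 - 0)
      rw [sub_zero, Zr_one, map_one]
    · change Zr η (1 - 1) = conj (Zr η 0)
      rw [sub_self, Zr_zero, map_zero]
  simple := by
    intro i j s hs t ht e
    have hs' : s ∈ Icc (0 : ℝ) 1 := ⟨hs.1, hs.2.le⟩
    have ht' : t ∈ Icc (0 : ℝ) 1 := ⟨ht.1, ht.2.le⟩
    fin_cases i <;> fin_cases j
    · change conj (Zr η s) = conj (Zr η t) at e
      exact ⟨rfl, Zr_inj h hs' ht' (star_injective e)⟩
    · change conj (Zr η s) = Zr η (1 - t) at e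
      exact (cross h hs ht e).elim
    · change Zr η (1 - s) = conj (Zr η t) at e
      exact (cross h ht hs e.symm).elim
    · change Zr η (1 - s) = Zr η (1 - t) at e
      have := Zr_inj h (one_sub_mem hs') (one_sub_mem ht') e
      exact ⟨rfl, by linarith⟩
  isOpen := isOpen_Om h
  isConnected := isConnected_Om h
  isBounded := isBounded_Om h
  frontier_eq := by
    rw [frontier_Om h h3]
    apply Subset.antisymm
    · rintro z (⟨r, hr, rfl⟩ | ⟨r, hr, rfl⟩)
      · refine mem_iUnion.2 ⟨1, 1 - r, one_sub_mem hr, ?_⟩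
        change Zr η (1 - (1 - r)) = Zr η r
        rw [sub_sub_cancel]
      · exact mem_iUnion.2 ⟨0, r, hr, rfl⟩
    · intro z hz
      obtain ⟨i, t, ht, rfl⟩ := mem_iUnion.1 hz
      fin_cases i
      · exact Or.inr ⟨t, ht, rfl⟩
      · exact Or.inl ⟨1 - t, one_sub_mem ht, rfl⟩
  left := by
    intro i t ht
    rw [derivWithin_lensArc h h3 i (Ioo_subset_Icc_self ht)]
    fin_cases i
    · filter_upwards [left_upper h h3 ht] with ε hε
      have := conj_mem h hε
      change conj (Zr η t) + ε * (Complex.I * conj (Zd η t)) ∈ Om η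
      convert this using 1
      simp
    · have ht' : 1 - t ∈ Ioo (0 : ℝ) 1 := ⟨by linarith [ht.2], by linarith [ht.1]⟩
      filter_upwards [left_upper h h3 ht'] with ε hε
      change Zr η (1 - t) + ε * (Complex.I * -Zd η (1 - t)) ∈ Om η
      convert hε using 1
      ring

/-! ### The angles -/

lemma EE_sq {r : ℝ} (hr : zeta η r = Real.pi / 4) : EE η r ^ 2 = Complex.I := by
  unfold EE
  rw [hr, ← Complex.exp_nat_mul]
  have e : ((2 : ℕ) : ℂ) * (((Real.pi / 4 : ℝ) : ℂ) * Complex.I) = ((Real.pi / 2 : ℝ) : ℂ) * Complex.I := by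
    push_cast; ring
  rw [e, Complex.exp_mul_I, ← Complex.ofReal_cos, ← Complex.ofReal_sin, Real.cos_pi_div_two,
    Real.sin_pi_div_two]
  simp

lemma conj_EE (r : ℝ) : conj (EE η r) = (EE η r)⁻¹ := by
  rw [Complex.inv_def, Complex.normSq_eq_norm_sq, norm_EE]
  simp

lemma Zd_zero : Zd η 0 = EE η 0 := by
  unfold Zd DD; simp

lemma Zd_one : Zd η 1 = (EE η 1)⁻¹ := by
  unfold Zd DD
  have := EE_ne (η := η) 1
  simp
  field_simp

lemma vel_ratio (h : IsBump η) (i : Fin 2) :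
    lensVel η (i + 1) 0 / lensVel η i 1 = Complex.I := by
  fin_cases i
  · change -Zd η (1 - 0) / conj (Zd η 1) = Complex.I
    rw [sub_zero, Zd_one, map_inv₀, conj_EE, inv_inv]
    have h4 := EE_sq (η := η) (r := 1) (zeta_one h)
    have h5 := EE_ne (η := η) 1
    rw [div_eq_iff h5, ← h4]
    have h6 : EE η 1 ^ 2 * EE η 1 * EE η 1 = -1 := by
      rw [mul_assoc, ← sq, h4, Complex.I_mul_I]
    field_simp
    linear_combination -h6
  · change conj (Zd η 0) / -Zd η (1 - 1) = Complex.I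
    rw [sub_self, Zd_zero, conj_EE]
    have h4 := EE_sq (η := η) (r := 0) (zeta_zero h)
    have h5 := EE_ne (η := η) 0
    rw [div_eq_iff (neg_ne_zero.2 h5), ← h4]
    have h6 : EE η 0 ^ 2 * EE η 0 * EE η 0 = -1 := by
      rw [mul_assoc, ← sq, h4, Complex.I_mul_I]
    field_simp
    linear_combination h6

lemma angle_aux (h : IsBump η) (h3 : ContDiff ℝ 3 η) (i : Fin 2) :
    Real.pi - Complex.arg (derivWithin (lensArc η (i + 1)) (Icc 0 1) 0 /
      derivWithin (lensArc η i) (Icc 0 1) 1) = Real.pi / 2 := by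
  have h0 : (0 : ℝ) ∈ Icc (0 : ℝ) 1 := by norm_num
  have h1 : (1 : ℝ) ∈ Icc (0 : ℝ) 1 := by norm_num
  rw [derivWithin_lensArc h h3 _ h0, derivWithin_lensArc h h3 _ h1, vel_ratio h, Complex.arg_I]
  ring

lemma lens_angle (h : IsBump η) (h3 : ContDiff ℝ 3 η) (i : Fin ((lens h h3).n + 1)) :
    (lens h h3).angle i = Real.pi / 2 := angle_aux h h3 i

/-! ### Measurability -/

lemma measurable_zeta (h : IsBump η) : Measurable (zeta η) := by
  unfold zeta
  exact h.continuous_gam.measurable.comp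
    (Real.measurable_log.comp (measurable_id.div (measurable_const.sub measurable_id)))

lemma measurable_EE (h : IsBump η) : Measurable (EE η) := by
  unfold EE
  exact Complex.measurable_exp.comp
    ((Complex.measurable_ofReal.comp (measurable_zeta h)).mul_const _)

lemma measurable_DD (h : IsBump η) : Measurable (DD η) := by
  unfold DD
  exact (measurable_const.sub Complex.measurable_ofReal).add
    (Complex.measurable_ofReal.mul (measurable_EE h))

lemma measurable_Zr (h : IsBump η) : Measurable (Zr η) := by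
  unfold Zr
  exact (Complex.measurable_ofReal.mul (measurable_EE h)).div (measurable_DD h)

lemma measurable_Zd (h : IsBump η) : Measurable (Zd η) := by
  unfold Zd
  refine Measurable.div (Measurable.mul (measurable_EE h) (measurable_const.add
    (Measurable.mul_const (Complex.measurable_ofReal.comp ?_) _))) ((measurable_DD h).pow_const 2)
  exact (measurable_id.mul (measurable_const.sub measurable_id)).mul (measurable_deriv _)

lemma measurable_lensArc (h : IsBump η) (i : Fin 2) : Measurable (lensArc η i) := by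
  fin_cases i
  · change Measurable (fun t => conj (Zr η t))
    exact Complex.continuous_conj.measurable.comp (measurable_Zr h)
  · change Measurable (fun t => Zr η (1 - t))
    exact (measurable_Zr h).comp (measurable_const.sub measurable_id)

lemma measurable_lensVel (h : IsBump η) (i : Fin 2) : Measurable (lensVel η i) := by
  fin_cases i
  · change Measurable (fun t => conj (Zd η t))
    exact Complex.continuous_conj.measurable.comp (measurable_Zd h)
  · change Measurable (fun t => -Zd η (1 - t))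
    exact ((measurable_Zd h).comp (measurable_const.sub measurable_id)).neg

/-! ### Change of variables -/

/-- the parameter changes of the two arcs -/
noncomputable def phi : Fin 2 → ℝ → ℝ := ![sg, fun x => 1 - sg x]

noncomputable def phid : Fin 2 → ℝ → ℝ := ![sd, fun x => -sd x]

/-- the arcs in the variable `x` -/
noncomputable def ZZ (η : ℝ → ℝ) : Fin 2 → ℝ → ℂ := ![fun x => conj (Z η x), Z η]

lemma hasDerivAt_phi (i : Fin 2) (x : ℝ) : HasDerivAt (phi i) (phid i x) x := by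
  fin_cases i
  · exact hasDerivAt_sg x
  · exact (hasDerivAt_sg x).const_sub 1

lemma abs_phid (i : Fin 2) (x : ℝ) : |phid i x| = sd x := by
  fin_cases i
  · exact abs_of_pos (sd_pos x)
  · change |-sd x| = sd x
    rw [abs_neg]; exact abs_of_pos (sd_pos x)

lemma phi_inj (i : Fin 2) {x y : ℝ} (e : phi i x = phi i y) : x = y := by
  fin_cases i
  · exact sg_inj e
  · change 1 - sg x = 1 - sg y at e
    exact sg_inj (by linarith)

lemma phi_mem (i : Fin 2) (x : ℝ) : phi i x ∈ Ioo (0 : ℝ) 1 := by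
  have := sg_mem x
  fin_cases i
  · exact this
  · change 1 - sg x ∈ Ioo (0 : ℝ) 1
    constructor <;> linarith [this.1, this.2]

lemma exists_phi (i : Fin 2) {t : ℝ} (ht : t ∈ Ioo (0 : ℝ) 1) : ∃ x, phi i x = t := by
  fin_cases i
  · exact exists_sg ht
  · obtain ⟨x, hx⟩ := exists_sg (r := 1 - t) ⟨by linarith [ht.2], by linarith [ht.1]⟩
    refine ⟨x, ?_⟩
    change 1 - sg x = t
    rw [hx]; ring

lemma arc_phi (i : Fin 2) (x : ℝ) : lensArc η i (phi i x) = ZZ η i x := by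
  fin_cases i
  · change conj (Zr η (sg x)) = conj (Z η x)
    rw [Zr_sg]
  · change Zr η (1 - (1 - sg x)) = Z η x
    rw [sub_sub_cancel, Zr_sg]

lemma norm_vel_phi (h : IsBump η) (h3 : ContDiff ℝ 3 η) (i : Fin 2) (x : ℝ) :
    sd x * ‖lensVel η i (phi i x)‖ = ‖Z' η x‖ := by
  have h1 : ‖Z' η x‖ = sd x * ‖Zd η (sg x)‖ := by
    rw [← Zd_sg h h3 x, norm_mul, Complex.norm_real, Real.norm_of_nonneg (sd_pos x).le, mul_comm]
  rw [h1]
  fin_cases i
  · change sd x * ‖conj (Zd η (sg x))‖ = _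
    rw [Complex.norm_conj]
  · change sd x * ‖-Zd η (1 - (1 - sg x))‖ = _
    rw [sub_sub_cancel, norm_neg]

lemma lintegral_ds (h : IsBump η) (h3 : ContDiff ℝ 3 η) (i : Fin 2) (F : ℂ → ℝ≥0∞)
    (hF : Measurable F) :
    ∫⁻ z, F z ∂(((volume.restrict (Icc (0 : ℝ) 1)).withDensity
      fun t => ‖derivWithin (lensArc η i) (Icc 0 1) t‖ₑ).map (lensArc η i)) =
    ∫⁻ x : ℝ, F (ZZ η i x) * ‖Z' η x‖ₑ := by
  have harc : Measurable (lensArc η i) := measurable_lensArc h i
  have hvel : (fun t => ‖derivWithin (lensArc η i) (Icc 0 1) t‖ₑ)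
      =ᵐ[volume.restrict (Icc (0 : ℝ) 1)] fun t => ‖lensVel η i t‖ₑ := by
    filter_upwards [ae_restrict_mem measurableSet_Icc] with t ht
    rw [derivWithin_lensArc h h3 i ht]
  rw [lintegral_map hF harc, withDensity_congr_ae hvel]
  have hm : Measurable (fun t => ‖lensVel η i t‖ₑ) := (measurable_lensVel (η := η) h i).enorm
  rw [lintegral_withDensity_eq_lintegral_mul _ hm
    (show Measurable (fun t => F (lensArc η i t)) from hF.comp harc)]
  rw [← Measure.restrict_congr_set (Ioo_ae_eq_Icc (a := (0 : ℝ)) (b := 1))]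
  have himg : phi i '' univ = Ioo (0 : ℝ) 1 := by
    ext t
    constructor
    · rintro ⟨x, -, rfl⟩; exact phi_mem i x
    · intro ht
      obtain ⟨x, hx⟩ := exists_phi i ht
      exact ⟨x, trivial, hx⟩
  rw [← himg, lintegral_image_eq_lintegral_abs_deriv_mul MeasurableSet.univ
    (fun x _ => (hasDerivAt_phi i x).hasDerivWithinAt) (fun x _ y _ e => phi_inj i e)]
  rw [Measure.restrict_univ]
  apply lintegral_congr
  intro x
  rw [abs_phid]
  simp only [Pi.mul_apply]
  rw [arc_phi, ← mul_assoc, mul_comm (F _)]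
  congr 1
  rw [← ofReal_norm, ← ofReal_norm, ← ENNReal.ofReal_mul (sd_pos x).le, norm_vel_phi h h3]

lemma lens_lint (h : IsBump η) (h3 : ContDiff ℝ 3 η) (F : ℂ → ℝ≥0∞) (hF : Measurable F) :
    ∫⁻ z, F z ∂(lens h h3).ds = ∫⁻ x : ℝ, (F (Z η x) + F (conj (Z η x))) * ‖Z' η x‖ₑ := by
  unfold CurvPolygon.ds
  rw [lintegral_sum_measure, tsum_fintype]
  change ∑ i : Fin 2, _ = _
  rw [Fin.sum_univ_two]
  refine (congrArg₂ (· + ·) (lintegral_ds h h3 0 F hF) (lintegral_ds h h3 1 F hF)).trans ?_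
  have hZ : Measurable (ZZ η 1) := by
    have e : ZZ η 1 = fun x => lensArc η 1 (phi 1 x) := by
      ext x; rw [arc_phi]
    rw [e]
    apply (measurable_lensArc h 1).comp
    exact (continuous_iff_continuousAt.2 fun x => (hasDerivAt_phi 1 x).continuousAt).measurable
  have hZ' : Measurable (fun x => ‖Z' η x‖ₑ) := by
    have e : (Z' η) = fun x => Zd η (sg x) * (sd x : ℂ) := by
      ext x; rw [Zd_sg h h3]
    rw [e]
    refine Measurable.enorm (Measurable.mul ((measurable_Zd h).comp ?_) (Complex.measurable_ofReal.comp ?_))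
    · exact (continuous_iff_continuousAt.2 fun x => (hasDerivAt_sg x).continuousAt).measurable
    · unfold sd
      exact Real.measurable_exp.div ((measurable_const.add Real.measurable_exp).pow_const 2)
  change (∫⁻ x, F (ZZ η 0 x) * ‖Z' η x‖ₑ) + (∫⁻ x, F (ZZ η 1 x) * ‖Z' η x‖ₑ) = _
  rw [← lintegral_add_right _
    (show Measurable (fun x => F (ZZ η 1 x) * ‖Z' η x‖ₑ) from (hF.comp hZ).mul hZ')]
  apply lintegral_congr
  intro x
  change F (conj (Z η x)) * ‖Z' η x‖ₑ + F (Z η x) * ‖Z' η x‖ₑ = _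
  ring

lemma lensArc_injOn (h : IsBump η) (i : Fin 2) : InjOn (lensArc η i) (Ioo 0 1) := by
  intro s hs t ht e
  have hs' : s ∈ Icc (0 : ℝ) 1 := Ioo_subset_Icc_self hs
  have ht' : t ∈ Icc (0 : ℝ) 1 := Ioo_subset_Icc_self ht
  fin_cases i
  · change conj (Zr η s) = conj (Zr η t) at e
    exact Zr_inj h hs' ht' (star_injective e)
  · change Zr η (1 - s) = Zr η (1 - t) at e
    have := Zr_inj h (one_sub_mem hs') (one_sub_mem ht') e
    linarith

lemma ae_aux (h : IsBump η) (p : ℂ → Prop)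
    (hp : ∀ x : ℝ, p (Z η x) ∧ p (conj (Z η x))) (i : Fin 2) (w : ℝ → ℝ≥0∞) :
    ∀ᵐ z ∂(((volume.restrict (Icc (0 : ℝ) 1)).withDensity w).map (lensArc η i)), p z := by
  have harc : Measurable (lensArc η i) := measurable_lensArc h i
  have hA : MeasurableSet (lensArc η i '' Ioo 0 1) :=
    measurableSet_Ioo.image_of_measurable_injOn (measurable_lensArc h i) (lensArc_injOn h i)
  have hpA : ∀ z ∈ lensArc η i '' Ioo 0 1, p z := by
    rintro _ ⟨t, ht, rfl⟩
    obtain ⟨x, rfl⟩ := exists_phi i ht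
    rw [arc_phi]
    fin_cases i
    · exact (hp x).2
    · exact (hp x).1
  have h1 : ∀ᵐ z ∂(((volume.restrict (Icc (0 : ℝ) 1)).withDensity w).map (lensArc η i)),
      z ∈ lensArc η i '' Ioo 0 1 := by
    refine (ae_map_iff harc.aemeasurable (p := fun z => z ∈ lensArc η i '' Ioo 0 1) hA).2 ?_
    apply (withDensity_absolutelyContinuous _ _).ae_le
    rw [← Measure.restrict_congr_set (Ioo_ae_eq_Icc (a := (0 : ℝ)) (b := 1))]
    filter_upwards [ae_restrict_mem measurableSet_Ioo] with t ht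
    exact ⟨t, ht, rfl⟩
  exact h1.mono hpA

lemma lens_ae (h : IsBump η) (h3 : ContDiff ℝ 3 η) (p : ℂ → Prop)
    (hp : ∀ x : ℝ, p (Z η x) ∧ p (conj (Z η x))) : ∀ᵐ z ∂(lens h h3).ds, p z := by
  unfold CurvPolygon.ds
  rw [Measure.ae_sum_iff]
  intro i
  exact ae_aux h p hp i _

lemma kernel_eq (a v : ℂ) (hv : v ≠ 0) :
    inner ℝ a (-(Complex.I * (v / (‖v‖ : ℂ)))) / ‖a‖ ^ 2 * ‖v‖ = (v / a).im := by
  have hv' : ‖v‖ ≠ 0 := norm_ne_zero_iff.2 hv
  rw [Complex.inner, Complex.div_im, ← Complex.normSq_eq_norm_sq]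
  have e : (-(Complex.I * (v / (‖v‖ : ℂ)))) = ((‖v‖⁻¹ : ℝ) : ℂ) * (-(Complex.I * v)) := by
    push_cast; field_simp
  rw [e]
  have e2 : ((‖v‖⁻¹ : ℝ) : ℂ) * (-(Complex.I * v)) * (starRingEnd ℂ) a =
      ((‖v‖⁻¹ : ℝ) : ℂ) * ((starRingEnd ℂ) a * (-(Complex.I * v))) := by ring
  rw [e2, Complex.re_ofReal_mul]
  simp only [Complex.mul_re, Complex.conj_re, Complex.conj_im, Complex.neg_re, Complex.neg_im,
    Complex.mul_im, Complex.I_re, Complex.I_im]
  field_simp
  ring

lemma scaled_im (s : ℝ) (v a : ℂ) : s * (v / a).im = (((s : ℂ) * v) / a).im := by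
  rw [mul_div_assoc, Complex.im_ofReal_mul]

lemma npTrunc_term (h : IsBump η) (h3 : ContDiff ℝ 3 η) (i : Fin 2) {ε : ℝ} (f : ℂ → ℂ)
    (x : ℂ) :
    (∫ t in {t | t ∈ Icc (0 : ℝ) 1 ∧ ε < ‖lensArc η i t - x‖},
      ((inner ℝ (lensArc η i t - x) (-(Complex.I * (derivWithin (lensArc η i) (Icc 0 1) t /
        (‖derivWithin (lensArc η i) (Icc 0 1) t‖ : ℂ)))) / ‖lensArc η i t - x‖ ^ 2 : ℝ) : ℂ)
        * f (lensArc η i t) * (‖derivWithin (lensArc η i) (Icc 0 1) t‖ : ℂ)) =
    ∫ y in {y : ℝ | ε < ‖ZZ η i y - x‖},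
      ((((sd y : ℂ) * lensVel η i (phi i y)) / (ZZ η i y - x)).im : ℂ) * f (ZZ η i y) := by
  have hset : phi i '' {y : ℝ | ε < ‖ZZ η i y - x‖} =
      {t | t ∈ Ioo (0 : ℝ) 1 ∧ ε < ‖lensArc η i t - x‖} := by
    ext t
    constructor
    · rintro ⟨y, hy, rfl⟩
      refine ⟨phi_mem i y, ?_⟩
      rw [arc_phi]; exact hy
    · rintro ⟨ht, hε⟩
      obtain ⟨y, rfl⟩ := exists_phi i ht
      refine ⟨y, ?_, rfl⟩
      rw [arc_phi] at hε
      exact hε
  have hae : {t | t ∈ Icc (0 : ℝ) 1 ∧ ε < ‖lensArc η i t - x‖} =ᵐ[volume]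
      {t | t ∈ Ioo (0 : ℝ) 1 ∧ ε < ‖lensArc η i t - x‖} := by
    have h1 := (Ioo_ae_eq_Icc (μ := (volume : Measure ℝ)) (a := (0 : ℝ)) (b := 1)).symm
    exact h1.inter (ae_eq_refl {t | ε < ‖lensArc η i t - x‖})
  rw [setIntegral_congr_set hae, ← hset]
  have hcont : Continuous (ZZ η i) := by
    have e : ZZ η i = fun x => lensArc η i (phi i x) := by
      ext x; rw [arc_phi]
    rw [e, continuous_iff_continuousAt]
    intro y
    exact ContinuousAt.comp (g := lensArc η i)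
      (hasDerivAt_lensArc h h3 i (Ioo_subset_Icc_self (phi_mem i y))).continuousAt
      (hasDerivAt_phi i y).continuousAt
  have hmeas : MeasurableSet {y : ℝ | ε < ‖ZZ η i y - x‖} :=
    (isOpen_lt continuous_const (hcont.sub continuous_const).norm).measurableSet
  rw [integral_image_eq_integral_abs_deriv_smul hmeas
    (fun x _ => (hasDerivAt_phi i x).hasDerivWithinAt) (fun x _ y _ e => phi_inj i e)]
  apply setIntegral_congr_fun hmeas
  intro y hy
  have hmem : phi i y ∈ Icc (0 : ℝ) 1 := Ioo_subset_Icc_self (phi_mem i y)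
  have hv := lensVel_ne h i hmem
  have h4 := kernel_eq (ZZ η i y - x) (lensVel η i (phi i y)) hv
  simp only
  rw [arc_phi, abs_phid, derivWithin_lensArc h h3 i hmem, ← scaled_im, ← h4]
  rw [Complex.real_smul]
  push_cast
  ring

lemma lens_trunc (h : IsBump η) (h3 : ContDiff ℝ 3 η) (ε : ℝ) (f : ℂ → ℂ) (x : ℂ) :
    (lens h h3).npTrunc ε f x =
    (1 / (2 * Real.pi) : ℝ) *
    ((∫ y in {y : ℝ | ε < ‖Z η y - x‖}, ((-(Z' η y / (Z η y - x)).im : ℝ) : ℂ) * f (Z η y)) +
      ∫ y in {y : ℝ | ε < ‖conj (Z η y) - x‖},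
        ((-(Z' η y / (Z η y - conj x)).im : ℝ) : ℂ) * f (conj (Z η y))) := by
  unfold CurvPolygon.npTrunc
  congr 1
  change ∑ i : Fin 2, _ = _
  rw [Fin.sum_univ_two]
  refine (congrArg₂ (· + ·) (npTrunc_term h h3 0 f x) (npTrunc_term h h3 1 f x)).trans ?_
  rw [add_comm]
  congr 1
  · have e : ∀ y, ((sd y : ℂ) * lensVel η 1 (phi 1 y)) = -Z' η y := by
      intro y
      rw [← Zd_sg h h3 y]
      change (sd y : ℂ) * (-Zd η (1 - (1 - sg y))) = _
      rw [sub_sub_cancel]; ring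
    change ∫ y in {y : ℝ | ε < ‖Z η y - x‖}, _ = _
    congr 1
    ext y
    rw [e]
    change ((-Z' η y / (Z η y - x)).im : ℂ) * f (Z η y) = _
    rw [neg_div, Complex.neg_im]
  · have e : ∀ y, ((sd y : ℂ) * lensVel η 0 (phi 0 y)) = conj (Z' η y) := by
      intro y
      rw [← Zd_sg h h3 y]
      change (sd y : ℂ) * (conj (Zd η (sg y))) = _
      rw [map_mul, Complex.conj_ofReal]; ring
    change ∫ y in {y : ℝ | ε < ‖conj (Z η y) - x‖}, _ = _
    congr 1
    ext y
    rw [e]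
    change ((conj (Z' η y) / (conj (Z η y) - x)).im : ℂ) * f (conj (Z η y)) = _
    have e2 : conj (Z' η y) / (conj (Z η y) - x) = conj (Z' η y / (Z η y - conj x)) := by
      rw [map_div₀, map_sub, Complex.conj_conj]
    rw [e2, Complex.conj_im]

/-- There is a lens shaped curvilinear polygon as required. -/
theorem exists_lens {η : ℝ → ℝ} (h : IsBump η) (h3 : ContDiff ℝ 3 η) :
    ∃ P : CurvPolygon, IsLens η P :=
  ⟨lens h h3,
    { angle := lens_angle h h3
      lint := lens_lint h h3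
      ae := lens_ae h h3
      trunc := fun ε _ f x => lens_trunc h h3 ε f x }⟩

end Pool.Agent.Helper53.NP
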